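import Pool.Agent.J4H79.UD.Rotc
import Pool.Agent.J4H79.AS.Fnc
import Pool.Agent.J4H79.AS.Sm

/-!
# Project UD (helper16), job FNCC (helper79)
-/

set_option autoImplicit false
set_option linter.all false
open Set Filter Topology Metric Complex MeasureTheory
open scoped ComplexConjugate

namespace Pool.Agent.J4H79.UD

open Pool.Agent.J4H16 Pool.Agent.W746.LD Pool.Agent.J4H16.AS Pool.Agent.J4H16.UD
open Pool.Agent.J4H79.AS (same_deriv t_SM)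

theorem t_FNCC : S_FNCC := by
  intro n c r ν A x hQ hdn hI hx θ hθ
  obtain ⟨C0, c0, K⟩ := exists_KC
  have hC0 := K.one_le
  obtain ⟨R0, hR0⟩ : ∃ R0 : ℝ, R0 = 5 + 64 * (C0 + 2) / θ := ⟨_, rfl⟩
  have hp1 : 0 < 64 * (C0 + 2) / θ := by positivity
  have hR00 : 0 < R0 := by rw [hR0]; positivity
  refine ⟨R0, hR00, ?_⟩
  intro φ κ B d M hφ hκ hκ1 hin hout hd hM
  obtain ⟨ζ0, hζ0, hζ00⟩ := hin (mem_ball_self hR00)
  have hζ0n : ‖ζ0‖ < 1 := by simpa using hζ0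
  have hκm : ‖(κ : ℂ)‖ = κ := by rw [Complex.norm_real, Real.norm_of_nonneg hκ.le]
  have hκb : (κ : ℂ) ∈ ball (0 : ℂ) 1 := by rw [mem_ball_zero_iff, hκm]; exact hκ1
  have hD1 : deriv φ κ ≠ 0 :=
    Pool.Agent.Helper202.Univ.deriv_ne_zero isOpen_ball hφ.1 hφ.2 hκb
  have hD2 : deriv φ ζ0 ≠ 0 :=
    Pool.Agent.Helper202.Univ.deriv_ne_zero isOpen_ball hφ.1 hφ.2 hζ0
  have hD1p := norm_pos_iff.mpr hD1
  have hD2p := norm_pos_iff.mpr hD2
  -- the radius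
  obtain ⟨t, ht⟩ : ∃ t : ℝ, t = max κ ‖ζ0‖ := ⟨_, rfl⟩
  have ht1 : t < 1 := by rw [ht]; exact max_lt hκ1 hζ0n
  obtain ⟨k, hk⟩ := exists_rad ht1
  have htκ : κ ≤ t := by rw [ht]; exact le_max_left _ _
  have htζ : ‖ζ0‖ ≤ t := by rw [ht]; exact le_max_right _ _
  obtain ⟨M', hM'⟩ : ∃ M' : ℝ, M' =
    (2 * C0 ^ (2 * k) + M / ‖deriv φ κ‖) * (C0 ^ k * C0 ^ k) * ‖deriv φ ζ0‖ := ⟨_, rfl⟩
  have hM'0 : 0 ≤ M' := by rw [hM']; positivity
  obtain ⟨δ0, hδ0, hN⟩ := near_const_ph hI hQ.hn K hx hθ hM'0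
  obtain ⟨s0, hs0, hS⟩ := t_SM n c r hQ hdn x 0 R0 M' δ0 hR00 hδ0
  refine ⟨s0, hs0, ?_⟩
  intro s m G hs hss0 hG hF
  obtain ⟨h, hh, hhκ⟩ := hF
  have hsC : (s : ℂ) ≠ 0 := by exact_mod_cast hs.ne'
  have hsφ : Univ (fun ζ => s * φ ζ) 0 1 := univ_smul hs hφ
  have hhin := hh.injOn hsφ
  have hhu : Univ h 0 1 := ⟨hh.diff, hhin⟩
  -- the inverse
  set ψ : ℂ → ℂ := Function.invFunOn φ (ball 0 1) with hψ
  have hψl : ∀ ζ ∈ ball (0 : ℂ) 1, ψ (φ ζ) = ζ := fun ζ hζ =>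
    Pool.Agent.Helper202.Univ.invFunOn_left hφ.2 hζ
  have hψr : ∀ W ∈ φ '' ball 0 1, φ (ψ W) = W := fun W hW =>
    Pool.Agent.Helper202.Univ.invFunOn_right hW
  have hψm : ∀ W ∈ φ '' ball 0 1, ψ W ∈ ball (0 : ℂ) 1 := fun W hW =>
    Pool.Agent.Helper202.Univ.invFunOn_mem hW
  have hψd : ∀ W ∈ φ '' ball 0 1, DifferentiableAt ℂ ψ W := fun W hW =>
    Pool.Agent.Helper202.Univ.differentiableAt_inv isOpen_ball hφ.1 hφ.2 hW
  have hio : IsOpen (φ '' ball 0 1) :=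
    Pool.Agent.Helper202.Univ.isOpen_image isOpen_ball hφ.1 hφ.2 isOpen_ball subset_rfl
  set G' : ℂ → ℂ := fun W => h (ψ W) with hG'
  have hG'd : DifferentiableOn ℂ G' (φ '' ball 0 1) := by
    intro W hW
    exact ((hh.diff.differentiableAt (isOpen_ball.mem_nhds (hψm W hW))).comp W
      (hψd W hW)).differentiableWithinAt
  have hG'e : ∀ W ∈ φ '' ball 0 1, orb n c (G' W) m = s * W := by
    intro W hW
    simp only [hG']
    rw [hh.eq _ (hψm W hW), hψr W hW]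
  -- derivatives
  have hder : ∀ ζ ∈ ball (0 : ℂ) 1, deriv G' (φ ζ) = deriv h ζ / deriv φ ζ := by
    intro ζ hζ
    have hne : deriv φ ζ ≠ 0 :=
      Pool.Agent.Helper202.Univ.deriv_ne_zero isOpen_ball hφ.1 hφ.2 hζ
    have h1 : HasDerivAt G' (deriv G' (φ ζ)) (φ ζ) :=
      (hG'd.differentiableAt (hio.mem_nhds ⟨ζ, hζ, rfl⟩)).hasDerivAt
    have h2 : HasDerivAt φ (deriv φ ζ) ζ :=
      (hφ.1.differentiableAt (isOpen_ball.mem_nhds hζ)).hasDerivAt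
    have h3 := h1.comp ζ h2
    have h4 : G' ∘ φ =ᶠ[𝓝 ζ] h := by
      filter_upwards [isOpen_ball.mem_nhds hζ] with u hu
      simp only [Function.comp, hG']
      rw [hψl u hu]
    have h5 := h4.deriv_eq
    rw [h3.deriv] at h5
    rw [eq_div_iff hne]
    exact h5
  have hdh : ∀ ζ ∈ ball (0 : ℂ) 1, deriv h ζ ≠ 0 := fun ζ hζ =>
    Pool.Agent.Helper202.Univ.deriv_ne_zero isOpen_ball hh.diff hhin hζ
  -- the branch at φ κ
  have hκi : φ κ ∈ φ '' ball 0 1 := ⟨_, hκb, rfl⟩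
  obtain ⟨e, he, hes⟩ := Metric.isOpen_iff.mp hio _ hκi
  have hdκ : deriv G' (φ κ) = deriv h κ / deriv φ κ := hder _ hκb
  have hG'r : SB n c x s m (φ κ) e (‖G' (φ κ) - x‖ / ‖deriv G' (φ κ)‖) G' := by
    refine ⟨hG'd.mono hes, fun W hW => hG'e W (hes hW), ?_⟩
    have hne : deriv G' (φ κ) ≠ 0 := by
      rw [hdκ]; exact div_ne_zero (hdh _ hκb) hD1
    have hp := norm_pos_iff.mpr hne
    rw [div_mul_cancel₀ _ hp.ne']
  have hG'κ : G' (φ κ) = G (φ κ) := by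
    simp only [hG']
    rw [hψl _ hκb, hhκ]
  have hder2 : deriv G' (φ κ) = deriv G (φ κ) :=
    same_deriv hQ.hn hs he hd hG'r hG hG'κ
  -- comparison
  have k1 : ‖(κ : ℂ)‖ ≤ (1 - (3 / 4) ^ k) * 1 := by rw [hκm]; linarith
  have k2 : ‖ζ0‖ ≤ (1 - (3 / 4) ^ k) * 1 := by linarith
  have d1 := (KC.rad K one_pos hhu k (κ : ℂ) k1).1
  have d2 := (KC.rad K one_pos hhu k ζ0 k2).2
  have d3 := KC.rad_lip2 K one_pos hhu k (s := t) (by linarith) (x := ζ0) (u := (κ : ℂ)) htζ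
    (by rw [hκm]; exact htκ)
  have hG'0 : G' 0 = h ζ0 := by
    simp only [hG']
    rw [← hζ00, hψl _ hζ0]
  have hd0 : deriv G' 0 = deriv h ζ0 / deriv φ ζ0 := by
    have := hder ζ0 hζ0
    rwa [hζ00] at this
  have hd0n : ‖deriv h ζ0‖ = ‖deriv G' 0‖ * ‖deriv φ ζ0‖ := by
    rw [hd0, norm_div, div_mul_cancel₀ _ hD2p.ne']
  have hcone : ‖G' 0 - x‖ ≤ M' * ‖deriv G' 0‖ := by
    have h1 := hG.cone
    rw [← hhκ, ← hder2, hdκ, norm_div] at h1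
    have h2 : ‖h ζ0 - h κ‖ ≤ 2 * C0 ^ (2 * k) * ‖deriv h κ‖ := by
      refine d3.trans ?_
      have : 0 ≤ C0 ^ (2 * k) * ‖deriv h κ‖ := by positivity
      have ht0 : t ≤ 1 := ht1.le
      nlinarith
    rw [hG'0]
    calc ‖h ζ0 - x‖ = ‖(h ζ0 - h κ) + (h κ - x)‖ := by congr 1; ring
      _ ≤ ‖h ζ0 - h κ‖ + ‖h κ - x‖ := norm_add_le _ _
      _ ≤ 2 * C0 ^ (2 * k) * ‖deriv h κ‖ + M * (‖deriv h κ‖ / ‖deriv φ κ‖) := add_le_add h2 h1
      _ = (2 * C0 ^ (2 * k) + M / ‖deriv φ κ‖) * ‖deriv h κ‖ := by ring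
      _ ≤ (2 * C0 ^ (2 * k) + M / ‖deriv φ κ‖) * (C0 ^ k * (C0 ^ k * ‖deriv h ζ0‖)) :=
          mul_le_mul_of_nonneg_left (d1.trans (mul_le_mul_of_nonneg_left d2 (by positivity)))
            (by positivity)
      _ = M' * ‖deriv G' 0‖ := by rw [hM', hd0n]; ring
  have hsb1 : SB n c x s m 0 R0 M' G' :=
    ⟨hG'd.mono hin, fun W hW => hG'e W (hin hW), hcone⟩
  have hsm := (hS s m 0 G' hs hss0 (by simp) hsb1).le
  have hbr := hsb1.br hs
  rw [mul_zero] at hbr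
  have hder0 : deriv (fun w => G' (w / s)) 0 = deriv G' 0 / s := by
    have h3 : HasDerivAt G' (deriv G' 0) ((0 : ℂ) / s) := by
      rw [zero_div]; exact hsb1.hasDerivAt (mem_ball_self hR00)
    have h4 : HasDerivAt (fun w : ℂ => w / s) (1 / s) 0 := (hasDerivAt_id _).div_const _
    have h5 := h3.comp 0 h4
    rw [mul_one_div] at h5
    exact h5.deriv
  have hn0 : ‖deriv (fun w => G' (w / s)) 0‖ = ‖deriv G' 0‖ / s := by
    rw [hder0, norm_div, Complex.norm_real, Real.norm_of_nonneg hs.le]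
  have h6 := hN m 0 (s * R0) s (fun w => G' (w / s)) hs
    (by
      have : 4 < R0 := by rw [hR0]; linarith
      nlinarith)
    (by
      have h7 : 64 * (C0 + 2) ≤ θ * R0 := by
        have h8 : 64 * (C0 + 2) / θ ≤ R0 := by rw [hR0]; linarith
        rw [div_le_iff₀ hθ] at h8
        linarith
      calc 64 * (C0 + 2) * s ≤ θ * R0 * s := by gcongr
        _ = θ * (s * R0) := by ring)
    hbr
    (by
      rw [hn0]
      simp only [zero_div]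
      refine hcone.trans (le_of_eq ?_)
      field_simp)
    (by
      rw [hn0]
      calc s * (‖deriv G' 0‖ / s) = ‖deriv G' 0‖ := by field_simp
        _ ≤ δ0 := hsm)
  refine ⟨ν x * ph (deriv (fun w => G' (w / s)) 0), ?_, h6⟩
  rw [norm_mul, norm_ph, mul_one]
  exact hbr.deriv_ne (mem_ball_self (by positivity))

end Pool.Agent.J4H79.UD
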