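import Pool.Agent.J4H79.UD.Rotc

/-!
# Project UD (helper16), job ROT2C (helper79): degree two
-/

set_option autoImplicit false
set_option linter.all false
open Set Filter Topology Metric Complex MeasureTheory
open scoped ComplexConjugate

namespace Pool.Agent.J4H79.UD

open Pool.Agent.J4H16 Pool.Agent.W746.LD Pool.Agent.J4H16.AS Pool.Agent.J4H16.UD
open Pool.Agent.J4H73.AS (factor_zero exists_log_convex orb_c_eq t_UNIQ)
open Pool.Agent.J4H79.AS (int_log one_sub_slit const_of_exp alg1 alg2)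

theorem t_ROT2C : S_ROT2C := by
  classical
  intro c s φ0 κ0 κm lm m H hs hφ0 hκ0 hlm hlo hhi hfree hH hHe
  have C : Col κ0 κm lm := ⟨hκ0, hlm, hlo, hhi⟩
  have hn : 2 ≤ 2 := le_rfl
  obtain ⟨V, hVdef⟩ : ∃ V : Set ℂ, V = strip lm := ⟨_, rfl⟩
  rw [← hVdef] at hH
  have hVo : IsOpen V := by rw [hVdef]; exact isOpen_strip _
  have hVc : Convex ℝ V := by rw [hVdef]; exact convex_strip _
  have h0V : (0 : ℂ) ∈ V := by
    rw [hVdef]
    simp only [strip, mem_ofPred_eq, zero_re, abs_zero]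
    exact hlm
  have hIV : ∀ θ : ℝ, I * (θ : ℂ) ∈ V := by
    intro θ
    rw [hVdef]
    simp only [strip, mem_ofPred_eq]
    simpa using hlm
  have h2V : ∀ w ∈ V, w + 2 * Real.pi * I ∈ V := by
    intro w hw
    rw [hVdef] at hw ⊢
    simpa [strip] using hw
  -- the map to the disc
  set e : ℂ → ℂ := fun w => κm * Complex.exp w with he
  have heb : ∀ w ∈ V, e w ∈ ball (0 : ℂ) 1 := by
    intro w hw
    rw [mem_ball_zero_iff]
    rw [hVdef] at hw
    exact C.e_ball hw
  have hed : DifferentiableOn ℂ e V := by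
    intro w hw
    exact ((Complex.differentiable_exp w).const_mul _).differentiableWithinAt
  have heper : ∀ w, e (w + 2 * Real.pi * I) = e w := by
    intro w
    simp only [he]
    rw [Complex.exp_add, Complex.exp_two_pi_mul_I, mul_one]
  obtain ⟨φ, hφ⟩ : ∃ φ : ℂ → ℂ, φ = fun ζ => s * φ0 ζ := ⟨_, rfl⟩
  have hφu : Univ φ 0 1 := by rw [hφ]; exact univ_smul hs hφ0
  have hφe : ∀ w, φ (e w) = s * φ0 (κm * Complex.exp w) := by
    intro w
    simp only [hφ, he]
  -- the values of E avoid PC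
  have hEPC : ∀ w ∈ V, s * φ0 (κm * Complex.exp w) ∉ PC 2 c := by
    intro w hw
    rw [hVdef] at hw
    exact hfree _ (C.e_low hw) (C.e_ball hw)
  -- points of the disc over PC
  have hPCv : ∀ v : ℂ, v ∈ ball (0 : ℂ) 1 → φ v ∈ PC 2 c → ‖v‖ ≤ κ0 := by
    intro v hv h3
    have hv1 : ‖v‖ < 1 := by simpa using hv
    by_contra hcon
    push Not at hcon
    apply hfree v hcon hv1
    simpa only [hφ] using h3
  -- uniqueness of the lifts along the annulus
  have huniq0 : ∀ (j : ℕ) (G : ℂ → ℂ), j ≤ m → DifferentiableOn ℂ G V →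
      (∀ w ∈ V, orb 2 c (G w) j = s * φ0 (κm * Complex.exp w)) →
      G 0 = orb 2 c (H 0) (m - j) → ∀ w ∈ V, orb 2 c (H w) (m - j) = G w := by
    intro j G hj hG hGe h0
    apply t_UNIQ 2 c j V (fun w => s * φ0 (κm * Complex.exp w)) _ G 0 hn hVo
      hVc.isPreconnected h0V hEPC ((differentiable_orb _).comp_differentiableOn hH) hG
    · intro w hw
      show orb 2 c (orb 2 c (H w) (m - j)) j = _
      rw [← orb_add, Nat.sub_add_cancel hj, hHe w (by rw [← hVdef]; exact hw)]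
    · exact hGe
    · exact h0.symm
  have hE0 : orb 2 c (H 0) m = s * φ0 (κm * Complex.exp 0) := hHe 0 (by rw [← hVdef]; exact h0V)
  by_cases hall : ∀ j < m, ∀ h, Lf 2 c j φ h → h (e 0) = orb 2 c (H 0) (m - j) →
      ∀ w ∈ ball (0 : ℂ) 1, h w ≠ c
  · left
    obtain ⟨h, hh, h0⟩ := exists_lf hn hφu (heb 0 h0V) (x := H 0) (k := m) (by
      rw [hφe, hE0]) hall
    refine ⟨h, hφ ▸ hh, ?_⟩
    intro w hw
    rw [← hVdef] at hw
    have := huniq0 m (fun w => h (e w)) le_rfl (hh.diff.comp hed heb)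
      (fun w hw => by rw [hh.eq _ (heb w hw), hφe]) (by rw [h0, Nat.sub_self, orb_zero]) w hw
    rw [Nat.sub_self, orb_zero] at this
    exact this
  right
  push Not at hall
  obtain ⟨i, hi, h, hh, h0, v, hv, hvc⟩ := hall
  have hkey := huniq0 i (fun w => h (e w)) hi.le (hh.diff.comp hed heb)
      (fun w hw => by rw [hh.eq _ (heb w hw), hφe]) h0
  have hv1 : ‖v‖ < 1 := by simpa using hv
  have hv2 : ‖v‖ ≤ κ0 := by
    apply hPCv v hv
    rw [← hh.eq v hv, hvc, orb_c_eq hn]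
    exact orb_mem_PC (by omega)
  have hv1' : ‖-v‖ < 1 := by rwa [norm_neg]
  have hin := hh.injOn hφu
  obtain ⟨q, hq1, hq0, hq2, -, hq3⟩ := exists_pull hn hφu hh hv1 hvc
  obtain ⟨k1, hk1⟩ : ∃ k1 : ℕ, k1 = m - i - 1 := ⟨_, rfl⟩
  have hk1m : k1 + 1 + i = m := by omega
  -- the point `ξ0`
  obtain ⟨ξ0, hξ0, hξ0a, hξ0b⟩ := hq3 (orb 2 c (H 0) k1) (e 0) (heb 0 h0V) (by
    rw [← orb_succ, ← hkey 0 h0V]
    congr 1
    omega)
  have hξ0n : ‖ξ0 ^ 2‖ < 1 := by
    rw [mem_ball, dist_zero_right] at hξ0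
    rw [norm_pow]
    exact pow_lt_one₀ (norm_nonneg _) hξ0 (by norm_num)
  -- the logarithm of `M (e w)`
  set L : ℂ → ℂ := fun w => lA κm v w - lB κm v w with hL
  have hLd : DifferentiableOn ℂ L V := by
    rw [hVdef]; exact (C.lA_diff hv2).sub (C.lB_diff hv1)
  have hmob : ∀ ζ : ℂ, mob (-v) ζ = (ζ - v) / (1 - conj v * ζ) := by
    intro ζ
    unfold mob
    rw [map_neg]
    ring_nf
  have hLe : ∀ w ∈ V, Complex.exp (L w) = mob (-v) (e w) := by
    intro w hw
    rw [hVdef] at hw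
    simp only [hL]
    rw [Complex.exp_sub, C.exp_lA hv2 hw, C.exp_lB hv1 hw, hmob]
  have hLs : ∀ w, L (w + 2 * Real.pi * I) = L w + 2 * Real.pi * I := by
    intro w
    simp only [hL]
    rw [lA_shift, lB_shift]
    ring
  obtain ⟨κ, hκ⟩ : ∃ κ : ℂ, κ = ξ0 / Complex.exp (L 0 / 2) := ⟨_, rfl⟩
  have hsq : ∀ z : ℂ, Complex.exp (z / 2) ^ 2 = Complex.exp z := by
    intro z
    rw [← Complex.exp_nat_mul]
    congr 1
    push_cast
    ring
  have hξ0sq : ξ0 ^ 2 = Complex.exp (L 0) := by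
    rw [hLe 0 h0V, ← hξ0a, mob_inv hv1 hξ0n]
  have hκ2 : κ ^ 2 = 1 := by
    rw [hκ, div_pow, hsq, hξ0sq, div_self (Complex.exp_ne_zero _)]
  have hκ0 : κ ≠ 0 := by
    rintro rfl
    norm_num at hκ2
  set ξ : ℂ → ℂ := fun w => κ * Complex.exp (L w / 2) with hξ
  have hξz : ξ 0 = ξ0 := by
    simp only [hξ]
    rw [hκ, div_mul_cancel₀ _ (Complex.exp_ne_zero _)]
  have hξne : ∀ w, ξ w ≠ 0 := fun w => mul_ne_zero hκ0 (Complex.exp_ne_zero _)
  have hξsq : ∀ w ∈ V, ξ w ^ 2 = mob (-v) (e w) := by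
    intro w hw
    simp only [hξ]
    rw [mul_pow, hκ2, one_mul, hsq, hLe w hw]
  have hξb : ∀ w ∈ V, ξ w ∈ ball (0 : ℂ) 1 := by
    intro w hw
    have h3 := heb w hw
    rw [mem_ball, dist_zero_right] at h3 ⊢
    have h4 := mob_lt hv1' h3
    rw [← hξsq w hw, norm_pow] at h4
    by_contra hcon
    push Not at hcon
    have := one_le_pow₀ (n := 2) hcon
    linarith
  have hξd : DifferentiableOn ℂ ξ V := (hLd.div_const _).cexp.const_mul κ
  have hξs : ∀ w, ξ (w + 2 * Real.pi * I) = -ξ w := by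
    intro w
    simp only [hξ]
    rw [hLs, add_div, Complex.exp_add, show 2 * (Real.pi : ℂ) * I / 2 = Real.pi * I by ring,
      Complex.exp_pi_mul_I]
    ring
  have hmobe : ∀ w ∈ V, mob v (ξ w ^ 2) = e w := by
    intro w hw
    have h3 := heb w hw
    rw [mem_ball, dist_zero_right] at h3
    rw [hξsq w hw]
    have := mob_inv hv1' h3
    rwa [neg_neg] at this
  -- the values over the lifts of `q`
  have horbq : ∀ ζ ∈ ball (0 : ℂ) 1, ∀ w : ℂ, mob v (ζ ^ 2) = w → w ∈ ball (0 : ℂ) 1 →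
      orb 2 c (q ζ) (1 + i) = φ w := by
    intro ζ hζ w hw hwb
    rw [orb_add, orb_one, hq2 ζ hζ, hw, hh.eq w hwb]
  -- uniqueness for the lifts of `q`
  have huniq : ∀ (j : ℕ) (p : ℂ → ℂ), j ≤ k1 → Lf 2 c j q p → p ξ0 = orb 2 c (H 0) (k1 - j) →
      ∀ w ∈ V, orb 2 c (H w) (k1 - j) = p (ξ w) := by
    intro j p hj hp hp0 w hw
    have h3 := huniq0 (j + (1 + i)) (fun w => p (ξ w)) (by omega) (hp.diff.comp hξd hξb)
      (fun w hw => by
        rw [orb_add, hp.eq _ (hξb w hw), horbq _ (hξb w hw) _ (hmobe w hw) (heb w hw), hφe])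
      (by
        simp only [hξz]
        rw [hp0]
        congr 1
        omega) w hw
    rw [← h3]
    congr 1
    omega
  have e4 : ∀ w : ℂ, w + 4 * Real.pi * I = (w + 2 * Real.pi * I) + 2 * Real.pi * I := fun w => by ring
  have h4V : ∀ w ∈ V, w + 4 * Real.pi * I ∈ V := by
    intro w hw
    rw [e4]
    exact h2V _ (h2V w hw)
  have hξs4 : ∀ w, ξ (w + 4 * Real.pi * I) = ξ w := by
    intro w
    rw [e4, hξs, hξs, neg_neg]
  have hvv : (1 : ℂ) - conj v * v ≠ 0 := by
    have h3 := mob_den (a := -v) (ζ := v) hv1' hv1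
    rw [map_neg] at h3
    intro h4
    apply h3
    linear_combination h4
  have hdenw : ∀ w ∈ V, 1 - conj v * e w ≠ 0 ∧ e w - v ≠ 0 := by
    intro w hw
    rw [hVdef] at hw
    refine ⟨?_, ?_⟩
    · have := C.exp_lB hv1 hw
      simp only [he]
      rw [← this]; exact Complex.exp_ne_zero _
    · have := C.exp_lA hv2 hw
      simp only [he]
      rw [← this]; exact Complex.exp_ne_zero _
  by_cases hall2 : ∀ j < k1, ∀ p, Lf 2 c j q p → p ξ0 = orb 2 c (H 0) (k1 - j) →
      ∀ w ∈ ball (0 : ℂ) 1, p w ≠ c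
  · left
    obtain ⟨p, hp, hp0⟩ := exists_lf hn hq1 hξ0 (x := H 0) (k := k1) hξ0b hall2
    have hHp : ∀ w ∈ V, H w = p (ξ w) := by
      intro w hw
      have := huniq k1 p le_rfl hp (by rw [hp0, Nat.sub_self, orb_zero]) w hw
      rwa [Nat.sub_self, orb_zero] at this
    have hpin := hp.injOn hq1
    refine ⟨fun w hw => ?_, ?_⟩
    · rw [← hVdef] at hw
      constructor
      · rw [hHp _ (h4V w hw), hHp w hw, hξs4]
      · rw [hHp _ (h2V w hw), hHp w hw]
        intro h3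
        have h4 := hpin (hξb _ (h2V w hw)) (hξb w hw) h3
        rw [hξs] at h4
        have h5 : ξ w = 0 := by linear_combination (-1 / 2 : ℂ) * h4
        exact hξne w h5
    · -- the logarithm of the derivative
      have hpd : DifferentiableOn ℂ (deriv p) (ball 0 1) := hp.diff.deriv isOpen_ball
      have hpne : ∀ ζ ∈ ball (0 : ℂ) 1, deriv p ζ ≠ 0 := fun ζ hζ =>
        Pool.Agent.Helper202.Univ.deriv_ne_zero isOpen_ball hp.diff hpin hζ
      obtain ⟨P1, hP1, hP1e⟩ := exists_log_convex isOpen_ball (convex_ball (0 : ℂ) 1)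
        ⟨0, mem_ball_self one_pos⟩ hpd hpne
      obtain ⟨C0, hC0⟩ : ∃ C0 : ℂ, Complex.exp C0 = κ * (1 - conj v * v) / 2 :=
        ⟨Complex.log (κ * (1 - conj v * v) / 2),
          Complex.exp_log (div_ne_zero (mul_ne_zero hκ0 hvv) two_ne_zero)⟩
      set Λ : ℂ → ℂ := fun w => P1 (ξ w) + C0 + L w / 2 + (w + Complex.log κm) - lA κm v w -
        lB κm v w with hΛ
      have hΛd : DifferentiableOn ℂ Λ V := by
        have hA : DifferentiableOn ℂ (lA κm v) V := by rw [hVdef]; exact C.lA_diff hv2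
        have hB : DifferentiableOn ℂ (lB κm v) V := by rw [hVdef]; exact C.lB_diff hv1
        exact (((((hP1.comp hξd hξb).add_const C0).add (hLd.div_const 2)).add
          (differentiableOn_id.add_const _)).sub hA).sub hB
      have hΛe : ∀ w ∈ V, deriv H w = Complex.exp (Λ w) := by
        intro w hw
        have hw' := hw
        rw [hVdef] at hw'
        obtain ⟨d1, d2⟩ := hdenw w hw
        have hLder : HasDerivAt L (e w / (e w - v) - -(conj v * e w) / (1 - conj v * e w)) w :=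
          (C.lA_deriv hv2 hw').sub (C.lB_deriv hv1 hw')
        have hξder : HasDerivAt ξ (κ * (Complex.exp (L w / 2) *
            ((e w / (e w - v) - -(conj v * e w) / (1 - conj v * e w)) / 2))) w :=
          ((hLder.div_const 2).cexp).const_mul κ
        have hpder : HasDerivAt p (deriv p (ξ w)) (ξ w) :=
          (hp.diff.differentiableAt (isOpen_ball.mem_nhds (hξb w hw))).hasDerivAt
        have hHev : H =ᶠ[𝓝 w] fun u => p (ξ u) := by
          filter_upwards [hVo.mem_nhds hw] with u hu using hHp u hu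
        have hcomp : HasDerivAt (fun u => p (ξ u)) (deriv p (ξ w) * (κ * (Complex.exp (L w / 2) *
            ((e w / (e w - v) - -(conj v * e w) / (1 - conj v * e w)) / 2)))) w :=
          hpder.comp w hξder
        rw [hHev.deriv_eq, hcomp.deriv]
        simp only [hΛ]
        rw [Complex.exp_sub, Complex.exp_sub, Complex.exp_add, Complex.exp_add, Complex.exp_add,
          Complex.exp_add, C.exp_lA hv2 hw', C.exp_lB hv1 hw', hC0, hP1e _ (hξb w hw),
          Complex.exp_log C.kne, mul_comm (Complex.exp w) (κm : ℂ)]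
        exact alg1 _ _ _ _ _ _ d1 d2
      rw [int_log hVo hIV hΛd hΛe (4 * Real.pi)]
      have hAs : ∀ w, lA κm v (w + 4 * Real.pi * I) = lA κm v w + 4 * Real.pi * I := by
        intro w
        rw [e4, lA_shift, lA_shift]
        ring
      have hBs : ∀ w, lB κm v (w + 4 * Real.pi * I) = lB κm v w := by
        intro w
        rw [e4, lB_shift, lB_shift]
      have hper : Λ (I * ((4 * Real.pi : ℝ) : ℂ)) = Λ 0 + 2 * Real.pi * I := by
        have e5 : I * ((4 * Real.pi : ℝ) : ℂ) = 0 + 4 * Real.pi * I := by push_cast; ring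
        rw [e5]
        simp only [hΛ]
        rw [hξs4, hAs, hBs]
        simp only [hL]
        rw [hAs, hBs]
        ring
      rw [hper, add_sub_cancel_left, mul_div_assoc, div_self I_ne_zero, mul_one]
  · right
    push Not at hall2
    obtain ⟨j, hj, p, hp, hp0, v', hv', hv'c⟩ := hall2
    have hkey2 := huniq j p hj.le hp hp0
    have hpin := hp.injOn hq1
    obtain ⟨k, hk⟩ : ∃ k : ℕ, k = k1 - j - 1 := ⟨_, rfl⟩
    have hv'n : ‖v' ^ 2‖ < 1 := by
      rw [mem_ball, dist_zero_right] at hv'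
      rw [norm_pow]
      exact pow_lt_one₀ (norm_nonneg _) hv' (by norm_num)
    obtain ⟨ζ', hζ'⟩ : ∃ ζ' : ℂ, ζ' = mob v (v' ^ 2) := ⟨_, rfl⟩
    have hζ'1 : ‖ζ'‖ < 1 := by rw [hζ']; exact mob_lt hv1 hv'n
    have hζ'b : ζ' ∈ ball (0 : ℂ) 1 := by rw [mem_ball, dist_zero_right]; exact hζ'1
    have hζ'v : ‖ζ'‖ ≤ κ0 := by
      apply hPCv ζ' hζ'b
      rw [← horbq v' hv' ζ' hζ'.symm hζ'b, ← hp.eq v' hv', hv'c, ← orb_add, orb_c_eq hn]
      exact orb_mem_PC (by omega)
    have hdv : deriv p v' ≠ 0 := Pool.Agent.Helper202.Univ.deriv_ne_zero isOpen_ball hp.diff hpin hv'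
    obtain ⟨l, hl, hle⟩ := factor_zero hp.diff hpin hv' hv'c hdv
    set T : ℂ → ℂ := fun w => orb 2 c (H w) k with hT
    have hTd : DifferentiableOn ℂ T V := (differentiable_orb _).comp_differentiableOn hH
    have hTn : ∀ w ∈ V, T w ^ 2 = p (ξ w) - c := by
      intro w hw
      rw [← hkey2 w hw, eq_sub_iff_add_eq]
      simp only [hT]
      rw [← orb_succ]
      congr 1
      omega
    have hT0 : ∀ w ∈ V, T w ≠ 0 := by
      intro w hw h3
      apply hEPC w hw
      rw [← hHe w (by rw [← hVdef]; exact hw)]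
      obtain ⟨t, ht⟩ : ∃ t : ℕ, m = k + (t + 1) := ⟨m - k - 1, by omega⟩
      rw [ht, orb_add]
      have h4 : orb 2 c (H w) k = 0 := h3
      rw [h4]
      exact orb_mem_PC (by omega)
    have hξv : ∀ w ∈ V, ξ w - v' ≠ 0 := by
      intro w hw h3
      have h4 := hTn w hw
      rw [sub_eq_zero.mp h3, hv'c, sub_self] at h4
      exact hT0 w hw (pow_eq_zero_iff (by norm_num) |>.mp h4)
    obtain ⟨L2, hL2, hL2e⟩ := exists_log_convex hVo hVc ⟨0, h0V⟩ (hξd.sub_const v') hξv
    have hden' : 1 - conj v * ζ' ≠ 0 := by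
      have h3 := mob_den (a := -v) (ζ := ζ') hv1' hζ'1
      rw [map_neg] at h3
      intro h4
      apply h3
      linear_combination h4
    obtain ⟨C2, hC2⟩ : ∃ C2 : ℂ, Complex.exp C2 = -((1 - conj v * v) / (1 - conj v * ζ')) :=
      ⟨Complex.log (-((1 - conj v * v) / (1 - conj v * ζ'))),
        Complex.exp_log (neg_ne_zero.mpr (div_ne_zero hvv hden'))⟩
    set Λ2 : ℂ → ℂ := fun w => lA κm ζ' w - lB κm v w + C2 with hΛ2
    have hΛ2d : DifferentiableOn ℂ Λ2 V := by
      have hA : DifferentiableOn ℂ (lA κm ζ') V := by rw [hVdef]; exact C.lA_diff hζ'v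
      have hB : DifferentiableOn ℂ (lB κm v) V := by rw [hVdef]; exact C.lB_diff hv1
      exact (hA.sub hB).add_const C2
    have hv'sq : v' ^ 2 = (ζ' - v) / (1 - conj v * ζ') := by
      rw [← hmob, hζ', mob_inv hv1 hv'n]
    have hΛ2e : ∀ w ∈ V, Complex.exp (Λ2 w) = -(ξ w ^ 2 - v' ^ 2) := by
      intro w hw
      have hw' := hw
      rw [hVdef] at hw'
      obtain ⟨d1, d2⟩ := hdenw w hw
      simp only [hΛ2]
      rw [Complex.exp_add, Complex.exp_sub, C.exp_lA hζ'v hw', C.exp_lB hv1 hw', hC2,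
        hξsq w hw, hmob, hv'sq]
      exact alg2 _ _ _ _ d1 hden'
    have hΛ2s : ∀ w, Λ2 (w + 2 * Real.pi * I) = Λ2 w + 2 * Real.pi * I := by
      intro w
      simp only [hΛ2]
      rw [lA_shift, lB_shift]
      ring
    have hshift : ∀ g : ℂ → ℂ, DifferentiableOn ℂ g V →
        DifferentiableOn ℂ (fun w => g (w + 2 * Real.pi * I)) V := by
      intro g hg
      exact hg.comp (differentiableOn_id.add_const _) h2V
    have hg1 : ∀ w ∈ V, Complex.exp (L2 w + L2 (w + 2 * Real.pi * I) - Λ2 w) = 1 := by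
      intro w hw
      have h3 := hΛ2e w hw
      rw [Complex.exp_sub, Complex.exp_add, hL2e w hw, hL2e _ (h2V w hw), hξs]
      rw [div_eq_one_iff_eq (Complex.exp_ne_zero _), h3]
      ring
    have hL24 : ∀ w ∈ V, L2 (w + 4 * Real.pi * I) = L2 w + 2 * Real.pi * I := by
      intro w hw
      have h3 := const_of_exp hVo hVc.isPreconnected ((hL2.add (hshift L2 hL2)).sub hΛ2d) hg1
        (h2V w hw) hw
      have h4 : L2 (w + 2 * Real.pi * I) + L2 (w + 2 * Real.pi * I + 2 * Real.pi * I) -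
          Λ2 (w + 2 * Real.pi * I) = L2 w + L2 (w + 2 * Real.pi * I) - Λ2 w := h3
      rw [hΛ2s] at h4
      rw [e4]
      linear_combination h4
    set S : ℂ → ℂ := fun w => Complex.exp ((L2 w + l (ξ w)) / 2) with hS
    have hSd : DifferentiableOn ℂ S V := ((hL2.add (hl.comp hξd hξb)).div_const 2).cexp
    have hS2 : ∀ w ∈ V, S w ^ 2 = p (ξ w) - c := by
      intro w hw
      simp only [hS]
      rw [hsq, Complex.exp_add, hL2e w hw, hle _ (hξb w hw)]
    have hS0 : ∀ w, S w ≠ 0 := fun w => Complex.exp_ne_zero _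
    obtain ⟨μ, hμ⟩ : ∃ μ : ℂ, μ = T 0 / S 0 := ⟨_, rfl⟩
    have hμn : μ ^ 2 = 1 := by
      rw [hμ, div_pow, hTn 0 h0V, hS2 0 h0V, div_self]
      rw [← hS2 0 h0V]
      exact pow_ne_zero 2 (hS0 0)
    have hTS : ∀ w ∈ V, T w = μ * S w := by
      apply pow_unique hn hVo hVc.isPreconnected hTd (hSd.const_mul μ) ?_ ?_ h0V ?_
      · intro w hw
        rw [mul_pow, hμn, one_mul, hTn w hw, hS2 w hw]
      · intro w hw
        refine mul_ne_zero ?_ (hS0 w)
        intro h3
        rw [h3, zero_pow (by norm_num)] at hμn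
        exact zero_ne_one hμn
      · rw [hμ, div_mul_cancel₀ _ (hS0 0)]
    refine ⟨k, by omega, ?_⟩
    intro w hw
    rw [← hVdef] at hw
    refine ⟨hT0 w hw, ?_⟩
    have h3 := hTS _ (h4V w hw)
    have h4 := hTS w hw
    simp only [hT] at h3 h4
    rw [h3, h4]
    simp only [hS]
    rw [hL24 w hw, hξs4]
    have h5 : (L2 w + 2 * Real.pi * I + l (ξ w)) / 2 = (L2 w + l (ξ w)) / 2 + Real.pi * I := by ring
    rw [h5, Complex.exp_add, Complex.exp_pi_mul_I]
    ring


end Pool.Agent.J4H79.UD
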