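import Pool.Agent.J4H16.UD.Defs
import Pool.Agent.J4H79.AS.Rot2

/-!
# Project UD (helper16), job ROTC (helper79): lifts of conformal annuli
-/

set_option autoImplicit false
set_option linter.all false
open Set Filter Topology Metric Complex MeasureTheory
open scoped ComplexConjugate

namespace Pool.Agent.J4H79.UD

open Pool.Agent.J4H16 Pool.Agent.W746.LD Pool.Agent.J4H16.AS Pool.Agent.J4H16.UD
open Pool.Agent.J4H73.AS (factor_zero exists_log_convex orb_c_eq t_UNIQ)
open Pool.Agent.J4H79.AS (int_log one_sub_slit const_of_exp alg1 alg2)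

/-- a logarithm of `κ e^w - v` -/
noncomputable def lA (κ : ℝ) (v w : ℂ) : ℂ :=
  w + Complex.log (1 - v / κ * Complex.exp (-w)) + Complex.log κ

/-- a logarithm of `1 - conj v * κ e^w` -/
noncomputable def lB (κ : ℝ) (v w : ℂ) : ℂ := Complex.log (1 - conj v * (κ * Complex.exp w))

/-- the numerical data of a free collar -/
structure Col (κ0 κ l : ℝ) : Prop where
  p0 : 0 < κ0
  l0 : 0 < l
  lo : κ0 < κ * Real.exp (-l)
  hi : κ * Real.exp l < 1

namespace Col

variable {κ0 κ l : ℝ} (C : Col κ0 κ l)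

include C

lemma kp : 0 < κ := by
  have h1 := C.lo
  have h2 := Real.exp_pos (-l)
  have h3 := C.p0
  by_contra hcon
  push Not at hcon
  have : κ * Real.exp (-l) ≤ 0 := mul_nonpos_of_nonpos_of_nonneg hcon h2.le
  linarith

lemma kne : (κ : ℂ) ≠ 0 := by exact_mod_cast C.kp.ne'

lemma norm_e (w : ℂ) : ‖(κ : ℂ) * Complex.exp w‖ = κ * Real.exp w.re := by
  rw [norm_mul, Complex.norm_real, Real.norm_of_nonneg C.kp.le, Complex.norm_exp]

lemma e_ball {w : ℂ} (hw : w ∈ strip l) : ‖(κ : ℂ) * Complex.exp w‖ < 1 := by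
  simp only [strip, mem_ofPred_eq, abs_lt] at hw
  rw [C.norm_e]
  have h1 : Real.exp w.re < Real.exp l := Real.exp_lt_exp.mpr hw.2
  have := mul_lt_mul_of_pos_left h1 C.kp
  linarith [C.hi]

lemma e_low {w : ℂ} (hw : w ∈ strip l) : κ0 < ‖(κ : ℂ) * Complex.exp w‖ := by
  simp only [strip, mem_ofPred_eq, abs_lt] at hw
  rw [C.norm_e]
  have h1 : Real.exp (-l) < Real.exp w.re := Real.exp_lt_exp.mpr hw.1
  have := mul_lt_mul_of_pos_left h1 C.kp
  linarith [C.lo]

lemma e_ne (w : ℂ) : (κ : ℂ) * Complex.exp w ≠ 0 := mul_ne_zero C.kne (Complex.exp_ne_zero _)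

lemma k0lt : κ0 < 1 := by
  have h0 : (0 : ℂ) ∈ strip l := by
    simp only [strip, mem_ofPred_eq, zero_re, abs_zero]
    exact C.l0
  exact (C.e_low h0).trans (C.e_ball h0)

lemma lA_slit {v w : ℂ} (hv : ‖v‖ ≤ κ0) (hw : w ∈ strip l) :
    1 - v / κ * Complex.exp (-w) ∈ Complex.slitPlane := by
  apply one_sub_slit
  have h1 : v / κ * Complex.exp (-w) = v / (κ * Complex.exp w) := by
    rw [Complex.exp_neg]
    have := C.kne
    have := Complex.exp_ne_zero w
    field_simp
  rw [h1, norm_div, div_lt_one ((norm_pos_iff).mpr (C.e_ne w))]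
  exact hv.trans_lt (C.e_low hw)

lemma lB_slit {v w : ℂ} (hv : ‖v‖ < 1) (hw : w ∈ strip l) :
    1 - conj v * (κ * Complex.exp w) ∈ Complex.slitPlane := by
  apply one_sub_slit
  rw [norm_mul, RCLike.norm_conj]
  have := C.e_ball hw
  have := norm_nonneg v
  have := norm_nonneg ((κ : ℂ) * Complex.exp w)
  nlinarith

lemma lA_diff {v : ℂ} (hv : ‖v‖ ≤ κ0) :
    DifferentiableOn ℂ (lA κ v) (strip l) := by
  unfold lA
  apply DifferentiableOn.add_const
  apply differentiableOn_id.add
  apply DifferentiableOn.clog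
  · have : Differentiable ℂ (fun w : ℂ => 1 - v / κ * Complex.exp (-w)) := by fun_prop
    exact this.differentiableOn
  · intro w hw
    exact C.lA_slit hv hw

lemma lB_diff {v : ℂ} (hv : ‖v‖ < 1) : DifferentiableOn ℂ (lB κ v) (strip l) := by
  unfold lB
  apply DifferentiableOn.clog
  · have : Differentiable ℂ (fun w : ℂ => 1 - conj v * (κ * Complex.exp w)) := by fun_prop
    exact this.differentiableOn
  · intro w hw
    exact C.lB_slit hv hw

lemma exp_lA {v w : ℂ} (hv : ‖v‖ ≤ κ0) (hw : w ∈ strip l) :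
    Complex.exp (lA κ v w) = κ * Complex.exp w - v := by
  unfold lA
  rw [Complex.exp_add, Complex.exp_add, Complex.exp_log (Complex.slitPlane_ne_zero (C.lA_slit hv hw)),
    Complex.exp_log C.kne, Complex.exp_neg]
  have h4 := Complex.exp_ne_zero w
  have h5 := C.kne
  field_simp

lemma exp_lB {v w : ℂ} (hv : ‖v‖ < 1) (hw : w ∈ strip l) :
    Complex.exp (lB κ v w) = 1 - conj v * (κ * Complex.exp w) := by
  unfold lB
  rw [Complex.exp_log (Complex.slitPlane_ne_zero (C.lB_slit hv hw))]

end Col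

lemma lA_shift (κ : ℝ) (v w : ℂ) : lA κ v (w + 2 * Real.pi * I) = lA κ v w + 2 * Real.pi * I := by
  unfold lA
  have h : Complex.exp (-(w + 2 * Real.pi * I)) = Complex.exp (-w) := by
    rw [neg_add, Complex.exp_add, Complex.exp_neg (2 * Real.pi * I), Complex.exp_two_pi_mul_I]
    simp
  rw [h]
  ring

lemma lB_shift (κ : ℝ) (v w : ℂ) : lB κ v (w + 2 * Real.pi * I) = lB κ v w := by
  unfold lB
  rw [Complex.exp_add, Complex.exp_two_pi_mul_I, mul_one]

namespace Col

variable {κ0 κ l : ℝ} (C : Col κ0 κ l)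

include C

lemma lA_deriv {v w : ℂ} (hv : ‖v‖ ≤ κ0) (hw : w ∈ strip l) :
    HasDerivAt (lA κ v) (κ * Complex.exp w / (κ * Complex.exp w - v)) w := by
  have hV := isOpen_strip l
  have h1 := ((C.lA_diff hv).differentiableAt (hV.mem_nhds hw)).hasDerivAt
  have h2 := h1.cexp
  have h3 : HasDerivAt (fun u => Complex.exp (lA κ v u)) (κ * Complex.exp w) w := by
    have h4 : HasDerivAt (fun u : ℂ => κ * Complex.exp u - v) (κ * Complex.exp w) w :=
      ((Complex.hasDerivAt_exp w).const_mul _).sub_const v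
    apply h4.congr_of_eventuallyEq
    filter_upwards [hV.mem_nhds hw] with u hu using C.exp_lA hv hu
  have h5 := h2.unique h3
  rw [C.exp_lA hv hw] at h5
  have hne : κ * Complex.exp w - v ≠ 0 := by
    rw [← C.exp_lA hv hw]; exact Complex.exp_ne_zero _
  have h6 : deriv (lA κ v) w = κ * Complex.exp w / (κ * Complex.exp w - v) := by
    rw [eq_div_iff hne, mul_comm]; exact h5
  rw [← h6]
  exact h1

lemma lB_deriv {v w : ℂ} (hv : ‖v‖ < 1) (hw : w ∈ strip l) :
    HasDerivAt (lB κ v) (-(conj v * (κ * Complex.exp w)) / (1 - conj v * (κ * Complex.exp w))) w := by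
  have hV := isOpen_strip l
  have h1 := ((C.lB_diff hv).differentiableAt (hV.mem_nhds hw)).hasDerivAt
  have h2 := h1.cexp
  have h3 : HasDerivAt (fun u => Complex.exp (lB κ v u)) (-(conj v * (κ * Complex.exp w))) w := by
    have h4 : HasDerivAt (fun u : ℂ => 1 - conj v * (κ * Complex.exp u))
        (-(conj v * (κ * Complex.exp w))) w :=
      (((Complex.hasDerivAt_exp w).const_mul _).const_mul _).const_sub 1
    apply h4.congr_of_eventuallyEq
    filter_upwards [hV.mem_nhds hw] with u hu using C.exp_lB hv hu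
  have h5 := h2.unique h3
  rw [C.exp_lB hv hw] at h5
  have hne : 1 - conj v * (κ * Complex.exp w) ≠ 0 := by
    rw [← C.exp_lB hv hw]; exact Complex.exp_ne_zero _
  have h6 : deriv (lB κ v) w =
      -(conj v * (κ * Complex.exp w)) / (1 - conj v * (κ * Complex.exp w)) := by
    rw [eq_div_iff hne, mul_comm]; exact h5
  rw [← h6]
  exact h1

end Col

lemma univ_smul {s : ℝ} (hs : 0 < s) {φ : ℂ → ℂ} (hφ : Univ φ 0 1) :
    Univ (fun ζ => s * φ ζ) 0 1 := by
  have hs' : (s : ℂ) ≠ 0 := by exact_mod_cast hs.ne'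
  refine ⟨hφ.1.const_mul _, ?_⟩
  intro x hx y hy hxy
  exact hφ.2 hx hy (mul_left_cancel₀ hs' hxy)

theorem t_ROTC : S_ROTC := by
  classical
  intro n c s φ0 κ0 κ l m H hn hs hφ0 hκ0 hl hlo hhi hfree hH hHe
  have C : Col κ0 κ l := ⟨hκ0, hl, hlo, hhi⟩
  set V : Set ℂ := strip l with hVdef
  have hVo : IsOpen V := isOpen_strip _
  have hVc : Convex ℝ V := convex_strip _
  have h0V : (0 : ℂ) ∈ V := by
    rw [hVdef]
    simp only [strip, mem_ofPred_eq, zero_re, abs_zero]
    exact hl
  -- the map to the disc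
  set e : ℂ → ℂ := fun w => κ * Complex.exp w with he
  have heb : ∀ w ∈ V, e w ∈ ball (0 : ℂ) 1 := by
    intro w hw
    rw [mem_ball_zero_iff]
    exact C.e_ball hw
  have hed : DifferentiableOn ℂ e V := by
    intro w hw
    exact ((Complex.differentiable_exp w).const_mul _).differentiableWithinAt
  obtain ⟨φ, hφ⟩ : ∃ φ : ℂ → ℂ, φ = fun ζ => s * φ0 ζ := ⟨_, rfl⟩
  have hφu : Univ φ 0 1 := by rw [hφ]; exact univ_smul hs hφ0
  have hφe : ∀ w, φ (e w) = s * φ0 (κ * Complex.exp w) := by
    intro w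
    simp only [hφ, he]
  -- the values of E avoid PC
  have hEPC : ∀ w ∈ V, s * φ0 (κ * Complex.exp w) ∉ PC n c := fun w hw =>
    hfree _ (C.e_low hw) (C.e_ball hw)
  -- uniqueness of the lifts along the annulus
  have huniq : ∀ (j : ℕ) (h : ℂ → ℂ), j ≤ m → Lf n c j φ h →
      h (e 0) = orb n c (H 0) (m - j) → ∀ w ∈ V, orb n c (H w) (m - j) = h (e w) := by
    intro j h hj hh h0
    apply t_UNIQ n c j V (fun w => s * φ0 (κ * Complex.exp w)) _ (fun w => h (e w)) 0 hn hVo
      hVc.isPreconnected h0V hEPC ((differentiable_orb _).comp_differentiableOn hH)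
      (hh.diff.comp hed heb)
    · intro w hw
      show orb n c (orb n c (H w) (m - j)) j = _
      rw [← orb_add, Nat.sub_add_cancel hj, hHe w hw]
    · intro w hw
      show orb n c (h (e w)) j = _
      rw [hh.eq _ (heb w hw), hφe]
    · exact h0.symm
  by_cases hall : ∀ j < m, ∀ h, Lf n c j φ h → h (e 0) = orb n c (H 0) (m - j) →
      ∀ w ∈ ball (0 : ℂ) 1, h w ≠ c
  · left
    obtain ⟨h, hh, h0⟩ := exists_lf hn hφu (heb 0 h0V) (x := H 0) (k := m) (by
      rw [hφe, hHe 0 h0V]) hall
    refine ⟨h, hφ ▸ hh, ?_⟩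
    intro w hw
    have := huniq m h le_rfl hh (by rw [h0, Nat.sub_self, orb_zero]) w hw
    rw [Nat.sub_self, orb_zero] at this
    exact this
  · right
    push Not at hall
    obtain ⟨j, hj, h, hh, h0, v, hv, hvc⟩ := hall
    have hkey := huniq j h hj.le hh h0
    -- the position of `v`
    have hv1 : ‖v‖ < 1 := by simpa using hv
    have hv2 : ‖v‖ ≤ κ0 := by
      have h3 : φ v ∈ PC n c := by
        rw [← hh.eq v hv, hvc, orb_c_eq hn]
        exact orb_mem_PC (by omega)
      by_contra hcon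
      push Not at hcon
      apply hfree v hcon hv1
      simpa only [hφ] using h3
    -- the derivative at `v`
    have hin := hh.injOn hφu
    have hdv : deriv h v ≠ 0 := Pool.Agent.Helper202.Univ.deriv_ne_zero isOpen_ball hh.diff hin hv
    obtain ⟨l', hl', hle⟩ := factor_zero hh.diff hin hv hvc hdv
    -- the model
    set L : ℂ → ℂ := fun w => lA κ v w + l' (e w) with hL
    set S : ℂ → ℂ := fun w => Complex.exp (L w / n) with hS
    have hn0 : (n : ℂ) ≠ 0 := by exact_mod_cast (by omega : n ≠ 0)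
    have hLd : DifferentiableOn ℂ L V := (C.lA_diff hv2).add (hl'.comp hed heb)
    have hSd : DifferentiableOn ℂ S V := (hLd.div_const _).cexp
    have hSn : ∀ w ∈ V, S w ^ n = h (e w) - c := by
      intro w hw
      rw [hle _ (heb w hw)]
      simp only [hS]
      rw [← Complex.exp_nat_mul, mul_div_cancel₀ _ hn0]
      simp only [hL]
      rw [Complex.exp_add, C.exp_lA hv2 hw]
    set k : ℕ := m - j - 1 with hk
    set T : ℂ → ℂ := fun w => orb n c (H w) k with hT
    have hTd : DifferentiableOn ℂ T V := (differentiable_orb _).comp_differentiableOn hH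
    have hTn : ∀ w ∈ V, T w ^ n = h (e w) - c := by
      intro w hw
      rw [← hkey w hw, eq_sub_iff_add_eq]
      simp only [hT]
      rw [← orb_succ]
      congr 1
      omega
    have hS0 : ∀ w, S w ≠ 0 := fun w => Complex.exp_ne_zero _
    have hT0 : ∀ w ∈ V, T w ≠ 0 := by
      intro w hw h3
      have h4 := hTn w hw
      rw [← hSn w hw, h3, zero_pow (by omega)] at h4
      exact pow_ne_zero n (hS0 w) h4.symm
    set μ : ℂ := T 0 / S 0 with hμ
    have hμn : μ ^ n = 1 := by
      rw [hμ, div_pow, hTn 0 h0V, hSn 0 h0V, div_self]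
      rw [← hSn 0 h0V]
      exact pow_ne_zero n (hS0 0)
    have hTS : ∀ w ∈ V, T w = μ * S w := by
      apply pow_unique hn hVo hVc.isPreconnected hTd (hSd.const_mul μ) ?_ ?_ h0V ?_
      · intro w hw
        rw [mul_pow, hμn, one_mul, hTn w hw, hSn w hw]
      · intro w hw
        refine mul_ne_zero ?_ (hS0 w)
        intro h3
        rw [h3, zero_pow (by omega)] at hμn
        exact zero_ne_one hμn
      · rw [hμ, div_mul_cancel₀ _ (hS0 0)]
    refine ⟨k, by omega, ?_⟩
    intro w hw
    have hw' : w + 2 * Real.pi * I ∈ V := by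
      rw [hVdef] at hw ⊢
      simpa [strip] using hw
    refine ⟨hT0 w hw, ?_⟩
    have h3 := hTS _ hw'
    have h4 := hTS w hw
    simp only [hT] at h3 h4
    rw [h3, h4]
    have h5 : S (w + 2 * Real.pi * I) = Complex.exp (2 * Real.pi * I / n) * S w := by
      simp only [hS]
      rw [← Complex.exp_add]
      congr 1
      have h7 : e (w + 2 * Real.pi * I) = e w := by
        simp only [he]
        rw [Complex.exp_add, Complex.exp_two_pi_mul_I, mul_one]
      simp only [hL]
      rw [lA_shift, h7]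
      field_simp
      ring
    rw [h5]
    ring

end Pool.Agent.J4H79.UD
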