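import Pool.Agent.J4H16.UD.Defs
import Pool.Agent.J4H71.AS.Trk
import Pool.Agent.J4H79.UD.Rotc

/-!
# Project UD (helper16), jobs TRKC, NFC (helper79; after helper71's TRK)
-/

set_option autoImplicit false
set_option linter.all false
open Set Filter Topology Metric Complex MeasureTheory
open scoped ComplexConjugate

namespace Pool.Agent.J4H79.UD

open Pool.Agent.J4H16 Pool.Agent.W746.LD Pool.Agent.J4H16.AS Pool.Agent.J4H16.UD
open Pool.Agent.J4H71.AS (back')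

/-- The factorization through `hh` propagates. -/
theorem facV {n : ℕ} {c x : ℂ} {s : ℝ} {m i : ℕ} {Z : ℂ} {d M e : ℝ} {G hh : ℂ → ℂ} (hn : 2 ≤ n)
    (hs : 0 < s) (h : SB n c x s m Z d M G) (hhh : Br n c i (s * Z) (s * e) hh) (him : i ≤ m)
    (he : e ≤ d) {W0 : ℂ} (hW0 : W0 ∈ ball Z e)
    (h0 : orb n c (G W0) (m - i) = hh (s * W0)) :
    ∀ W ∈ ball Z e, orb n c (G W) (m - i) = hh (s * W) := by
  have hs' : (s : ℂ) ≠ 0 := by exact_mod_cast hs.ne'
  have hb := (h.mono he le_rfl).br hs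
  have hsh := hb.shift (i := m - i) (by omega)
  have e1 : m - (m - i) = i := by omega
  rw [e1] at hsh
  have hmem : ∀ W ∈ ball Z e, (s : ℂ) * W ∈ ball ((s : ℂ) * Z) (s * e) := by
    intro W hW
    rw [mem_ball, dist_eq_norm] at hW ⊢
    rw [← mul_sub, norm_mul, Complex.norm_real, Real.norm_of_nonneg hs.le]
    exact mul_lt_mul_of_pos_left hW hs
  have huq := hsh.unique hn hhh (hmem W0 hW0) (by
    show orb n c (G ((s : ℂ) * W0 / s)) (m - i) = hh (s * W0)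
    rw [mul_div_cancel_left₀ _ hs']
    exact h0)
  intro W hW
  have h1 : orb n c (G ((s : ℂ) * W / s)) (m - i) = hh (s * W) := huq _ (hmem W hW)
  rwa [mul_div_cancel_left₀ _ hs'] at h1

theorem t_TRKC : S_TRKC := by
  intro n c x r ν A U σ C V m i hh hV hconn hbr Z0 d0 M0 G0 hZ0R hZ0 hd0 hM0 h0 hf0
  obtain ⟨C0, c0, K⟩ := exists_KC
  have hC0 := K.one_le
  have hn := C.h.hn
  set Om : Set ℂ := V \ Lim U σ (PC n c) with hOm
  set S : Set ℂ := {Z | Z ∈ V ∧ ∃ (d M : ℝ) (G : ℕ → ℂ → ℂ), 0 < d ∧ 0 ≤ M ∧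
    GS n c x U σ Z d M m G ∧
      ∀ᶠ j in (U : Filter ℕ), orb n c (G j Z) (m j - i j) = hh j (σ j * Z)} with hS
  have hSo : IsOpen S := by
    rw [Metric.isOpen_iff]
    rintro Z ⟨hZR, d, M, G, hd, hM, hG, hf⟩
    obtain ⟨e, he, heV⟩ := Metric.isOpen_iff.mp hV Z hZR
    refine ⟨min (d / 4) e, lt_min (by positivity) he, ?_⟩
    intro W hW
    rw [mem_ball, dist_eq_norm, lt_min_iff] at hW
    refine ⟨heV (by rw [mem_ball, dist_eq_norm]; exact hW.2), 3 * d / 4, C0 ^ 2 * (M + d), G,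
      by positivity, by positivity, hG.move K C hd hM hW.1.le, ?_⟩
    filter_upwards [hG, hf, hbr] with j h1 h2 h3
    have he0 : 0 < min d e := lt_min hd he
    refine facV hn (C.pos j) h1 (h3.2 Z (min d e) he0
      ((ball_subset_ball (min_le_right _ _)).trans heV)) h3.1.le (min_le_left _ _)
      (mem_ball_self he0) h2 W ?_
    rw [mem_ball, dist_eq_norm, lt_min_iff]
    exact ⟨by linarith [hW.1], hW.2⟩
  have hTo : IsOpen (Om \ S) := by
    rw [Metric.isOpen_iff]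
    rintro Z ⟨⟨hZR, hZ⟩, hZS⟩
    obtain ⟨d, hd, hF⟩ := not_mem_Lim.mp hZ
    obtain ⟨e, he, heV⟩ := Metric.isOpen_iff.mp hV Z hZR
    refine ⟨min (d / 8) e, lt_min (by positivity) he, ?_⟩
    intro W hW
    rw [mem_ball, dist_eq_norm, lt_min_iff] at hW
    refine ⟨⟨heV (by rw [mem_ball, dist_eq_norm]; exact hW.2),
      not_mem_Lim.mpr ⟨d / 2, half_pos hd, hF.mono C.pos (by linarith [hW.1])⟩⟩, ?_⟩
    rintro ⟨-, d', M, G, hd', hM, hG, hf⟩
    apply hZS
    obtain ⟨G', hG', hGW⟩ := back' K Pool.Agent.J4H73.AS.t_LIFT Pool.Agent.J4H73.AS.t_UNIQ C hG hd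
      hd' hM hF hW.1.le
    refine ⟨hZR, 3 * d / 8, C0 ^ 2 * (M + d), G', by positivity, by positivity, hG', ?_⟩
    filter_upwards [hG', hGW, hf, hbr] with j h1 h2 h3 h4
    have he0 : 0 < min (3 * d / 8) e := lt_min (by positivity) he
    refine facV hn (C.pos j) h1 (h4.2 Z (min (3 * d / 8) e) he0
      ((ball_subset_ball (min_le_right _ _)).trans heV)) h4.1.le (min_le_left _ _)
      (W0 := W) ?_ ?_ Z (mem_ball_self he0)
    · rw [mem_ball, dist_eq_norm, lt_min_iff]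
      exact ⟨by linarith [hW.1], hW.2⟩
    · rw [h2]
      exact h3
  intro Z hZR hZ
  by_contra hcon
  have h1 : (Om ∩ (S ∩ (Om \ S))).Nonempty := by
    apply hconn S (Om \ S) hSo hTo
    · intro W hW
      by_cases hWS : W ∈ S
      · exact Or.inl hWS
      · exact Or.inr ⟨hW, hWS⟩
    · exact ⟨Z0, ⟨hZ0R, hZ0⟩, hZ0R, d0, M0, G0, hd0, hM0, h0, hf0⟩
    · exact ⟨Z, ⟨hZR, hZ⟩, ⟨hZR, hZ⟩, fun h => hcon h.2⟩
  obtain ⟨W, -, hW1, -, hW2⟩ := h1
  exact hW2 hW1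

/-- the derivative of the iterate does not vanish on a lift of a univalent function -/
theorem lf_P_ne {n : ℕ} {c : ℂ} {m : ℕ} {φ h : ℂ → ℂ} (hφ : Univ φ 0 1) (hh : Lf n c m φ h) {ζ : ℂ}
    (hζ : ζ ∈ ball (0 : ℂ) 1) : P n c (h ζ) m ≠ 0 := by
  have h1 : HasDerivAt (fun ζ => orb n c (h ζ) m) (P n c (h ζ) m * deriv h ζ) ζ :=
    (hasDerivAt_orb (n := n) (c := c) (h ζ) m).comp ζ
      (hh.diff.differentiableAt (isOpen_ball.mem_nhds hζ)).hasDerivAt
  have h2 : (fun ζ => orb n c (h ζ) m) =ᶠ[𝓝 ζ] φ := by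
    filter_upwards [isOpen_ball.mem_nhds hζ] with u hu using hh.eq u hu
  have h3 := h2.deriv_eq
  rw [h1.deriv] at h3
  intro h4
  rw [h4, zero_mul] at h3
  exact Pool.Agent.Helper202.Univ.deriv_ne_zero isOpen_ball hφ.1 hφ.2 hζ h3.symm

/-- Uniqueness of lifts of a univalent function. -/
theorem lf_unique {n : ℕ} {c : ℂ} (hn : 2 ≤ n) {m : ℕ} {φ g g' : ℂ → ℂ} (hφ : Univ φ 0 1)
    (h : Lf n c m φ g) (h' : Lf n c m φ g') {w0 : ℂ} (hw0 : w0 ∈ ball (0 : ℂ) 1)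
    (h0 : g w0 = g' w0) : ∀ w ∈ ball (0 : ℂ) 1, g w = g' w := by
  have key : ∀ j ≤ m, ∀ w ∈ ball (0 : ℂ) 1, orb n c (g w) (m - j) = orb n c (g' w) (m - j) := by
    intro j
    induction j with
    | zero =>
      intro _ w hw
      rw [Nat.sub_zero, h.eq w hw, h'.eq w hw]
    | succ j ih =>
      intro hj
      have h1 := ih (by omega)
      refine pow_unique hn isOpen_ball (convex_ball (0 : ℂ) 1).isPreconnected
        ((differentiable_orb _).comp_differentiableOn h.diff)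
        ((differentiable_orb _).comp_differentiableOn h'.diff) ?_ ?_ hw0 ?_
      · intro w hw
        have h2 := h1 w hw
        have h3 : m - j = (m - (j + 1)) + 1 := by omega
        rw [h3, orb_succ, orb_succ] at h2
        exact add_right_cancel h2
      · intro w hw
        exact orb_ne_zero_of_P hn (lf_P_ne hφ h' hw) (by omega)
      · show orb n c (g w0) _ = orb n c (g' w0) _
        rw [h0]
  intro w hw
  have := key m le_rfl w hw
  simpa using this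

theorem t_NFC : S_NFC := by
  intro n c s V m i hh φ κ y v hn hs hV hφ hκ hκ1 him hbr hin hy hv hvs hF
  obtain ⟨h, hl, hκy⟩ := hF
  have hsC : (s : ℂ) ≠ 0 := by exact_mod_cast hs.ne'
  have hsφ : Univ (fun ζ => s * φ ζ) 0 1 := univ_smul hs hφ
  have hκb : (κ : ℂ) ∈ ball (0 : ℂ) 1 := by
    rw [mem_ball_zero_iff, Complex.norm_real, Real.norm_of_nonneg hκ.le]; exact hκ1
  have hl1 : Lf n c i (fun ζ => s * φ ζ) (fun ζ => orb n c (h ζ) (m - i)) := by
    refine ⟨(differentiable_orb _).comp_differentiableOn hl.diff, ?_⟩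
    intro ζ hζ
    show orb n c (orb n c (h ζ) (m - i)) i = _
    rw [← orb_add, Nat.sub_add_cancel him.le, hl.eq ζ hζ]
  have hloc : ∀ ζ ∈ ball (0 : ℂ) 1, ∃ d : ℝ, 0 < d ∧ Br n c i (s * φ ζ) (s * d) hh := by
    intro ζ hζ
    obtain ⟨d, hd, hdV⟩ := Metric.isOpen_iff.mp hV (φ ζ) (hin ⟨ζ, hζ, rfl⟩)
    exact ⟨d, hd, hbr _ d hd hdV⟩
  have hl2 : Lf n c i (fun ζ => s * φ ζ) (fun ζ => hh (s * φ ζ)) := by
    refine ⟨?_, ?_⟩
    · intro ζ hζ
      obtain ⟨d, hd, hb⟩ := hloc ζ hζ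
      have h1 : DifferentiableAt ℂ hh (s * φ ζ) :=
        hb.diff.differentiableAt (isOpen_ball.mem_nhds (mem_ball_self (by positivity)))
      have h2 : DifferentiableAt ℂ (fun ζ => s * φ ζ) ζ :=
        hsφ.1.differentiableAt (isOpen_ball.mem_nhds hζ)
      exact (h1.comp ζ h2).differentiableWithinAt
    · intro ζ hζ
      obtain ⟨d, hd, hb⟩ := hloc ζ hζ
      exact hb.eq _ (mem_ball_self (by positivity))
  have huq := lf_unique hn hsφ hl1 hl2 hκb (by
    show orb n c (h κ) (m - i) = hh (s * φ κ)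
    rw [hκy, hy])
  obtain ⟨ζ1, hζ1, hζv⟩ := hvs
  have h3 : orb n c (h ζ1) (m - i) = hh (s * φ ζ1) := huq ζ1 hζ1
  rw [hζv, mul_div_cancel₀ _ hsC, hv] at h3
  obtain ⟨t, ht⟩ : ∃ t : ℕ, m - i = t + 1 := ⟨m - i - 1, by omega⟩
  rw [ht, orb_succ] at h3
  have h4 : orb n c (h ζ1) t ^ n = 0 := by linear_combination h3
  have h5 : orb n c (h ζ1) t = 0 := by
    by_contra hne
    exact pow_ne_zero n hne h4
  exact orb_ne_zero_of_P hn (lf_P_ne hsφ hl hζ1) (by omega) h5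

end Pool.Agent.J4H79.UD
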